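import Pool.Agent.H53.GM.Basic
import Pool.Agent.H56.NR.RSS
import Pool.Agent.H68.GC.OLF0

/-!
# Forbidden coloured patterns: (LIM) the limit of the Olsak families
-/

set_option autoImplicit false
set_option linter.unusedVariables false

namespace Pool.Agent.H35.GM

open Pool.Agent.H68.BP Pool.Agent.H58.SF Pool.Agent.H53.GC Pool.Agent.H53.GR Pool.Agent.H53.GM
open Pool.Agent.H68.GC
open Classical

namespace LIM

variable {τ σ : Sig} {N : ℕ} {W J J' : Type}

/-- the image of a type under a map -/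
def psh (u : J' → J) (t : Ty τ N J') : Ty τ N J :=
  {q | ∃ ρ : Fin N → Option J', (q.2 = fun v => (ρ v).map u) ∧ (q.1, ρ) ∈ t}

theorem map_inj {u : J' → J} (hu : Function.Injective u) {ρ ρ' : Fin N → Option J'}
    (h : (fun v => (ρ v).map u) = fun v => (ρ' v).map u) : ρ = ρ' :=
  funext fun v => Option.map_injective hu (congrFun h v)

theorem psh_rs [Fintype J'] [DecidableEq J] (u : J' → J) (hu : Function.Injective u) (t : Ty τ N J) :
    psh u (rs u t) = rse (Finset.univ.image u) t := by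
  ext q
  constructor
  · rintro ⟨ρ, h1, h2⟩
    have h3 : (q.1, fun v => (ρ v).map u) ∈ t := h2
    rw [← h1] at h3
    refine ⟨h3, ?_⟩
    intro v i hi
    rw [h1] at hi
    obtain ⟨a, -, ha⟩ := Option.map_eq_some_iff.1 hi
    exact Finset.mem_image.2 ⟨a, Finset.mem_univ _, ha⟩
  · rintro ⟨h1, h2⟩
    have h3 : ∀ v, ∃ o : Option J', o.map u = q.2 v := by
      intro v
      rcases hv : q.2 v with _ | i
      · exact ⟨none, rfl⟩
      · obtain ⟨a, -, ha⟩ := Finset.mem_image.1 (h2 v i hv)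
        exact ⟨some a, by rw [Option.map_some, ha]⟩
    choose ρ hρ using h3
    have h4 : q.2 = fun v => (ρ v).map u := funext fun v => (hρ v).symm
    refine ⟨ρ, h4, ?_⟩
    change (q.1, fun v => (ρ v).map u) ∈ t
    rw [← h4]
    exact h1

theorem rs_rse [Fintype J'] [DecidableEq J] (u : J' → J) (t : Ty τ N J) :
    rs u (rse (Finset.univ.image u) t) = rs u t := by
  ext q
  constructor
  · rintro ⟨h1, -⟩
    exact h1
  · intro h1
    refine ⟨h1, ?_⟩
    intro v i hi
    obtain ⟨a, -, ha⟩ := Option.map_eq_some_iff.1 hi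
    exact Finset.mem_image.2 ⟨a, Finset.mem_univ _, ha⟩

/-- the sort given by a map -/
def srt {j k : ℕ} (hj : j + 1 ≤ N) (en : Fin (j + 1) → Fin k) : So N k :=
  ⟨Finset.univ.image en, Finset.univ_nonempty.image en, by
    refine Finset.card_image_le.trans ?_
    rw [Finset.card_univ, Fintype.card_fin]
    exact hj⟩

/-- the operation on types given by a family and a map -/
def Gop {j k : ℕ} (G : So N k → (Fin 6 → Ty τ N (Fin k)) → Ty τ N (Fin k)) (hj : j + 1 ≤ N)
    (en : Fin (j + 1) → Fin k) (t : Fin 6 → Ty τ N (Fin (j + 1))) : Ty τ N (Fin (j + 1)) :=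
  rs en (G (srt hj en) (fun c => psh en (t c)))

theorem Gop_pat {j k : ℕ} {G : So N k → (Fin 6 → Ty τ N (Fin k)) → Ty τ N (Fin k)}
    (hG : ∀ e x y r, G e (pat r x y) = G e (pat 0 x y)) (hj : j + 1 ≤ N)
    (en : Fin (j + 1) → Fin k) (x y : Ty τ N (Fin (j + 1))) (r : Fin 3) :
    Gop G hj en (pat r x y) = Gop G hj en (pat 0 x y) := by
  unfold Gop
  have h : ∀ r : Fin 3, (fun c => psh en (pat r x y c)) = pat r (psh en x) (psh en y) :=
    fun r => funext fun c => pat_map (psh en) r x y c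
  rw [h, h, hG]

/-- the second component, for elements whose first component is `j` -/
noncomputable def cst (j : Fin N) (x : DmG τ N) : Ty τ N (Fin (j + 1)) :=
  if h : x.1 = j then h ▸ x.2 else ∅

theorem cst_mk (j : Fin N) (t : Ty τ N (Fin (j + 1))) : cst j (⟨j, t⟩ : DmG τ N) = t := by
  unfold cst
  rw [dif_pos rfl]

/-- the operation -/
noncomputable def oo (hN : 1 ≤ N)
    (g : (j : Fin N) → (Fin 6 → Ty τ N (Fin (j + 1))) → Ty τ N (Fin (j + 1)))
    (d : Fin 6 → DmG τ N) : DmG τ N :=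
  if ∀ c, (d c).1 = (d 0).1 then ⟨(d 0).1, g (d 0).1 (fun c => cst (d 0).1 (d c))⟩
  else ⟨⟨0, hN⟩, ∅⟩

theorem oo_mk (hN : 1 ≤ N)
    (g : (j : Fin N) → (Fin 6 → Ty τ N (Fin (j + 1))) → Ty τ N (Fin (j + 1))) (j : Fin N)
    (t : Fin 6 → Ty τ N (Fin (j + 1))) : oo hN g (fun c => ⟨j, t c⟩) = ⟨j, g j t⟩ := by
  unfold oo
  rw [if_pos fun c => rfl]
  simp only [cst_mk]

theorem oo_pat (hN : 1 ≤ N)
    (g : (j : Fin N) → (Fin 6 → Ty τ N (Fin (j + 1))) → Ty τ N (Fin (j + 1)))
    (hg : ∀ j x y r, g j (pat r x y) = g j (pat 0 x y)) (x y : DmG τ N) (r : Fin 3) :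
    oo hN g (pat r x y) = oo hN g (pat 0 x y) := by
  by_cases h : x.1 = y.1
  · obtain ⟨j, s⟩ := x
    obtain ⟨j', t⟩ := y
    dsimp only at h
    subst h
    have h1 : ∀ r : Fin 3, (pat r (⟨j, s⟩ : DmG τ N) ⟨j, t⟩) = fun c => ⟨j, pat r s t c⟩ :=
      fun r => funext fun c => (pat_map (fun u => (⟨j, u⟩ : DmG τ N)) r s t c).symm
    rw [h1, h1, oo_mk, oo_mk, hg]
  · have h1 : ∀ r : Fin 3, ¬ ∀ c, (pat r x y c).1 = (pat r x y 0).1 := by
      intro r h2
      have h3 := h2 1
      have h4 := h2 2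
      have h5 := h2 3
      fin_cases r
      · exact h h4.symm
      · exact h h3.symm
      · exact h h3
    unfold oo
    rw [if_neg (h1 r), if_neg (h1 0)]

/-- the extension of an increasing map -/
def ext {j M b : ℕ} (f : Fin (j + 1) → Fin b) (i : Fin M) : Fin (b + M) :=
  if h : (i : ℕ) < j + 1 then Fin.castAdd M (f ⟨i, h⟩) else Fin.natAdd b i

theorem ext_mono {j M b : ℕ} (f : Fin (j + 1) → Fin b) (hf : StrictMono f) :
    StrictMono (ext f : Fin M → Fin (b + M)) := by
  intro i i' hi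
  have hi' : (i : ℕ) < i' := hi
  unfold ext
  split_ifs with h1 h2 h2
  · have h3 : f ⟨i, h1⟩ < f ⟨i', h2⟩ := hf hi'
    exact h3
  · rw [Fin.lt_def]
    simp only [Fin.val_castAdd, Fin.val_natAdd]
    omega
  · omega
  · rw [Fin.lt_def]
    simp only [Fin.val_natAdd]
    omega

/-- `t` contains an allowed colour (or `s` is the full relation). -/
def hasP (Al : Fin σ.m → Fin τ.m → Prop) {k : ℕ} :
    (s : Option (Fin σ.m)) → (Fin (arP σ N s) → Fin k) → Ty τ N (Fin k) → Prop
  | none => fun _ _ => True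
  | some l => fun z t => hasl Al l z t

theorem label (F : Set (Str τ (Fin N))) (Al : Fin σ.m → Fin τ.m → Prop) {k : ℕ}
    (s : Option (Fin σ.m)) (z : Fin (arP σ N s) → Fin k) :
    ∃ l : Option (Σ l : Fin σ.m, (Fin (σ.ar l) → Fin k)), ∀ p : So N k → Ty τ N (Fin k),
      RR F Al k l p ↔ ∃ P, Mx F P ∧ hasP Al s z P ∧ ∀ e : So N k, p e = rse e.1 P := by
  rcases s with _ | l
  · refine ⟨none, fun p => ?_⟩
    constructor
    · rintro ⟨P, h1, h2⟩
      exact ⟨P, h1, trivial, h2⟩
    · rintro ⟨P, h1, -, h2⟩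
      exact ⟨P, h1, h2⟩
  · exact ⟨some ⟨l, z⟩, fun p => Iff.rfl⟩

theorem col_iff (hATM : T_ATM) {F : Set (Str τ (Fin N))} (hyp : Hyp τ N F)
    (Al : Fin σ.m → Fin τ.m → Prop) {k : ℕ} (s : Option (Fin σ.m)) (z : Fin (arP σ N s) → Fin k)
    (M : Str τ W) (a : Fin k → W) :
    hasP Al s z (tp N M a) ↔ colP Al N M s (fun i => a (z i)) := by
  rcases s with _ | l
  · exact Iff.rfl
  · constructor
    · rintro ⟨c, h1, h2, h3⟩
      exact ⟨c, h1, h2, (hATM τ N F W (Fin k) M a c _ hyp).1 h3⟩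
    · rintro ⟨c, h1, h2, h3⟩
      exact ⟨c, h1, h2, (hATM τ N F W (Fin k) M a c _ hyp).2 h3⟩

theorem hasP_mono {Al : Fin σ.m → Fin τ.m → Prop} {k : ℕ} {s : Option (Fin σ.m)}
    {z : Fin (arP σ N s) → Fin k} {t t' : Ty τ N (Fin k)} (h : t ⊆ t') (h' : hasP Al s z t) :
    hasP Al s z t' := by
  rcases s with _ | l
  · trivial
  · obtain ⟨c, h1, h2, h3⟩ := h'
    exact ⟨c, h1, h2, h h3⟩

theorem ar_pos {F : Set (Str τ (Fin N))} (hyp : Hyp τ N F) (Al : Fin σ.m → Fin τ.m → Prop)
    (s : Option (Fin σ.m)) (M : Str τ W) (x : Fin (arP σ N s) → W) (h : colP Al N M s x) :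
    0 < arP σ N s := by
  rcases s with _ | l
  · exact hyp.pos
  · obtain ⟨c, -, h2, -⟩ := h
    change 0 < σ.ar l
    rw [← h2]
    exact (hyp.ar c).1

end LIM

open LIM

theorem pf_LIM (hATM : Pool.Agent.H53.GM.T_ATM) (hTPB : Pool.Agent.H53.GM.T_TPB)
    (hMXE : Pool.Agent.H53.GM.T_MXE) (hMXR : Pool.Agent.H53.GM.T_MXR) :
    Pool.Agent.H53.GM.T_LIM := by
  intro τ σ N F Al hyp hFam
  have hN : 1 ≤ N := hyp.pos
  obtain ⟨b, hb⟩ : ∃ b : ℕ, ∀ s, arP σ N s ≤ b := by
    obtain ⟨b, hb⟩ := (Set.finite_range (arP σ N)).bddAbove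
    exact ⟨b, fun s => hb ⟨s, rfl⟩⟩
  have hfin : ∀ j : Fin N, Finite (Ty τ N (Fin (j + 1))) := fun j => finite_ty τ N _
  obtain ⟨k, hk⟩ := Pool.Agent.H56.NR.pf_RSS N (b + N)
    ((j : Fin N) → (Fin 6 → Ty τ N (Fin (j + 1))) → Ty τ N (Fin (j + 1)))
  have hk1 : 1 ≤ k := by
    rcases Nat.eq_zero_or_pos k with h0 | h0
    · exfalso
      subst h0
      obtain ⟨β, -, -⟩ := hk fun z => (z ⟨0, hN⟩).elim0
      exact (β ⟨0, by omega⟩).elim0
    · exact h0
  obtain ⟨G, hG, hGp⟩ := hFam k hk1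
  have hj : ∀ j : Fin N, (j : ℕ) + 1 ≤ N := fun j => j.2
  obtain ⟨β, hβ, hχ⟩ := hk fun z j =>
    Gop G (hj j) (fun i => z (Fin.castLE (hj j) i))
  -- the operation
  let g : (j : Fin N) → (Fin 6 → Ty τ N (Fin (j + 1))) → Ty τ N (Fin (j + 1)) := fun j =>
    Gop G (hj j) (fun i => β (Fin.natAdd b (Fin.castLE (hj j) i)))
  have hg : ∀ (j : Fin N) (f : Fin (j + 1) → Fin b), StrictMono f →
      g j = Gop G (hj j) (fun i => β (Fin.castAdd N (f i))) := by
    intro j f hf
    have h1 := hχ (fun i => Fin.natAdd b i) (ext f) (Fin.strictMono_natAdd b) (ext_mono f hf)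
    have h2 := congrFun h1 j
    refine h2.trans ?_
    congr 1
    funext i
    change β (ext f (Fin.castLE (hj j) i)) = _
    congr 1
    unfold ext
    rw [dif_pos (show ((Fin.castLE (hj j) i : Fin N) : ℕ) < j + 1 from i.2)]
    rfl
  refine ⟨oo hN g, ?_, ?_⟩
  · unfold tmG
    rw [poly_strOn]
    rintro ⟨s, t⟩ q hq
    choose Wc hWc Mc xx hVal hcol hxt hxq using hq
    dsimp only at hVal hcol hxt hxq xx ⊢
    -- the vertices
    let γ : Fin (arP σ N s) → Fin k := fun a => β (Fin.castAdd N (Fin.castLE (hb s) a))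
    have hγ : StrictMono γ := fun a a' h => hβ (by
      have h' : (a : ℕ) < a' := h
      rw [Fin.lt_def]
      exact h')
    have hpos : 0 < arP σ N s := ar_pos hyp Al s (Mc 0) (xx 0) (hcol 0)
    let y : (c : Fin 6) → Fin k → Wc c := fun c i =>
      if h : ∃ a, γ (t a) = i then xx c h.choose else xx c ⟨0, hpos⟩
    have hy : ∀ c a, y c (γ (t a)) = xx c a := by
      intro c a
      have h : ∃ a', γ (t a') = γ (t a) := ⟨a, rfl⟩
      change (if h : ∃ a', γ (t a') = γ (t a) then xx c h.choose else xx c ⟨0, hpos⟩) = _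
      rw [dif_pos h]
      exact hxt c _ _ (hγ.injective h.choose_spec)
    have hP : ∀ c, ∃ P : Ty τ N (Fin k), Mx F P ∧ tp N (Mc c) (y c) ⊆ P := fun c =>
      hMXE τ N F (Fin k) _ ⟨Wc c, hWc c, Mc c, y c, hVal c, rfl⟩
    choose P hPm hPs using hP
    obtain ⟨lb, hlb⟩ := label F Al s (fun a => γ (t a))
    have hp := hG lb (fun c e => rse e.1 (P c)) (fun c => by
      rw [hlb]
      refine ⟨P c, hPm c, ?_, fun e => rfl⟩
      refine hasP_mono (hPs c) ((col_iff hATM hyp Al s _ (Mc c) (y c)).2 ?_)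
      have h1 : (fun a => y c (γ (t a))) = xx c := funext (hy c)
      rw [h1]
      exact hcol c)
    rw [hlb] at hp
    obtain ⟨Q, hQm, hQh, hQe⟩ := hp
    have hQr := hQm.1
    obtain ⟨W', hW', M', y', hV', rfl⟩ := hQr
    refine ⟨W', hW', M', fun a => y' (γ (t a)), hV', (col_iff hATM hyp Al s _ M' y').1 hQh, ?_, ?_⟩
    · intro a a' h
      dsimp only
      rw [h]
    · intro j α hα
      have hen : Function.Injective (fun i => γ (t (α i))) := fun i i' h =>
        hα.injective (hγ.injective h)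
      have hT : tp N M' (fun i => y' (γ (t (α i)))) = rs (fun i => γ (t (α i))) (tp N M' y') :=
        (hTPB τ N W' W' (Fin k) (Fin (j + 1)) M' M' y').2.1 _
      refine ⟨?_, ?_⟩
      · rw [hT]
        exact hMXR τ N F (Fin k) (Fin (j + 1)) _ _ hyp hen hQm
      · have h1 : (fun c => q c ⟨j, α⟩) = fun c => ⟨j, tp N (Mc c) (fun i => xx c (α i))⟩ :=
          funext fun c => (hxq c j α hα).2
        change oo hN g (fun c => q c ⟨j, α⟩) = _
        rw [h1, oo_mk]
        have hmono : StrictMono (fun i => Fin.castLE (hb s) (t (α i))) := by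
          intro i i' h
          have h' := hα h
          exact h'
        rw [hg j (fun i => Fin.castLE (hb s) (t (α i))) hmono]
        -- the types of the six tuples are restrictions of the types `P c`
        have h5 : ∀ c, rs (fun i => γ (t (α i))) (P c) = tp N (Mc c) (fun i => xx c (α i)) := by
          intro c
          have h6 : tp N (Mc c) (fun i => xx c (α i)) =
              rs (fun i => γ (t (α i))) (tp N (Mc c) (y c)) := by
            rw [← (hTPB τ N (Wc c) (Wc c) (Fin k) (Fin (j + 1)) (Mc c) (Mc c) (y c)).2.1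
              (fun i => γ (t (α i)))]
            congr 1
            funext i
            exact (hy c (α i)).symm
          refine (hxq c j α hα).1.2 _ ?_ ?_
          · exact Rl.rs _ (fun W M a =>
              (hTPB τ N W W (Fin k) (Fin (j + 1)) M M a).2.1 _) (hPm c).1
          · rw [h6]
            exact rs_mono _ (hPs c)
        have h3 : Gop G (hj j) (fun i => γ (t (α i)))
            (fun c => tp N (Mc c) (fun i => xx c (α i))) =
              tp N M' (fun i => y' (γ (t (α i)))) := by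
          unfold Gop
          have h7 : (fun c => psh (fun i => γ (t (α i))) (tp N (Mc c) (fun i => xx c (α i)))) =
              fun c => rse (srt (hj j) (fun i => γ (t (α i)))).1 (P c) := by
            funext c
            rw [← h5 c]
            exact psh_rs _ hen (P c)
          rw [h7]
          have h4 := hQe (srt (hj j) (fun i => γ (t (α i))))
          rw [h4, hT]
          exact rs_rse _ _
        exact congrArg (fun u => (⟨j, u⟩ : DmG τ N)) h3
  · intro x y
    have h := oo_pat hN g (fun j x y r => Gop_pat hGp (hj j) _ x y r) x y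
    exact ⟨(h 1).symm, (h 1).trans (h 2).symm⟩

end Pool.Agent.H35.GM
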