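import Pool.Agent.H10.GM.Targets1

/-!
# The step for exactly `h` neighbours
-/

set_option autoImplicit false

namespace Pool.Agent.H35.GM

open Pool.Agent.H55.GW Pool.Agent.H10.GM

section aux

variable {V : Type} {E : V → V → Prop} {C Y Z A S : Set V}

/-- a connected set inside `C` which avoids a separator does not touch both sides -/
theorem no_both (hSep : Sep (HH E C Y Z) S Y Z) (hA : Cn E A) (hAC : A ⊆ C) (hAS : ∀ v ∈ A, v ∉ S)
    {y z : V} (hE : Sy E) (hy : y ∈ Y) (hyS : y ∉ S) (hz : z ∈ Z) (hzS : z ∉ S)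
    (hy' : ∃ c ∈ A, E y c) (hz' : ∃ c ∈ A, E z c) : False := by
  obtain ⟨c, hc, hyc⟩ := hy'
  obtain ⟨d, hd, hzd⟩ := hz'
  refine hSep y hy z hz ?_
  have h1 : RIn (HH E C Y Z) Sᶜ c d := (hA.2 c hc d hd).mono
    (fun u v h hu hv => ⟨h, Or.inl (Or.inl (hAC hu)), Or.inl (Or.inl (hAC hv)), Or.inl (hAC hu)⟩)
    (fun v hv => hAS v hv)
  have h2 : HH E C Y Z y c := ⟨hyc, Or.inl (Or.inr hy), Or.inl (Or.inl (hAC hc)),
    Or.inr (hAC hc)⟩
  have h3 : HH E C Y Z d z := ⟨hE z d hzd, Or.inl (Or.inl (hAC hd)), Or.inr hz,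
    Or.inl (hAC hd)⟩
  exact RIn.head h2 hyS (h1.tail h3 hzS)

end aux

theorem pf_MSB (hMSP : Pool.Agent.H10.GM.T_MSP) (hEXT : Pool.Agent.H10.GM.T_EXT) :
    Pool.Agent.H10.GM.T_MSB := by
  intro V _ E hE k h C U T hP hh hM
  have hM' : ∃ Y Z : Set V, Y ⊆ Nb E C ∧ Z ⊆ Nb E C ∧ Y.ncard = k ∧ Z.ncard = k ∧
      ¬ Lnk (HH E C Y Z) k Y Z := by
    by_contra hcon
    apply hM
    refine ⟨hP, hh, fun Y Z hY hZ hYk hZk => ?_⟩
    by_contra hL
    exact hcon ⟨Y, Z, hY, hZ, hYk, hZk, hL⟩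
  obtain ⟨Y, Z, hY, hZ, hYk, hZk, hL⟩ := hM'
  have hDY : Disjoint Y C := Set.disjoint_left.2 fun v hv hvC => (hY hv).1 hvC
  have hDZ : Disjoint Z C := Set.disjoint_left.2 fun v hv hvC => (hZ hv).1 hvC
  obtain ⟨S, hSk, hSep, hPaths⟩ := hMSP V E hE k C Y Z hDY hDZ hL
  have hSn : (S : Set V).ncard < k := by
    rw [Set.ncard_coe_finset]
    exact hSk
  -- `S` meets `C`
  have hne : ((S : Set V) ∩ C).Nonempty := by
    by_contra hcon
    have hcon' : ∀ v ∈ C, v ∉ (S : Set V) := fun v hv hvS => hcon ⟨v, hvS, hv⟩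
    obtain ⟨y, hy, hyS⟩ := Set.exists_mem_notMem_of_ncard_lt_ncard (s := (S : Set V)) (t := Y)
      (by rw [hYk]; exact hSn)
    obtain ⟨z, hz, hzS⟩ := Set.exists_mem_notMem_of_ncard_lt_ncard (s := (S : Set V)) (t := Z)
      (by rw [hZk]; exact hSn)
    exact no_both hSep hP.cnC le_rfl hcon' hE hy hyS hz hzS (hY hy).2 (hZ hz).2
  refine ⟨(S : Set V), hSn, hne, fun C' hC' => ?_⟩
  have hcn : Cn E C' := hC'.cn hE
  have hsub : C' ⊆ C \ (S : Set V) := hC'.sub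
  have hsubC : C' ⊆ C := fun v hv => (hsub hv).1
  -- the side without neighbours of `C'`
  have hQ : ∃ Q : Set V, (Q = Y ∨ Q = Z) ∧ ∀ q ∈ Q, q ∉ (S : Set V) → q ∉ Nb E C' := by
    by_contra hcon
    push Not at hcon
    obtain ⟨y, hy, hyS, hyN⟩ := hcon Y (Or.inl rfl)
    obtain ⟨z, hz, hzS, hzN⟩ := hcon Z (Or.inr rfl)
    exact no_both hSep hcn hsubC (fun v hv => (hsub hv).2) hE hy hyS hz hzS hyN.2 hzN.2
  obtain ⟨Q, hQYZ, hQN⟩ := hQ
  have hQsub : Q ⊆ Nb E C := by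
    rcases hQYZ with rfl | rfl
    · exact hY
    · exact hZ
  have hQk : Q.ncard = k := by
    rcases hQYZ with rfl | rfl
    · exact hYk
    · exact hZk
  obtain ⟨P, len, hp1, hp2⟩ := hPaths Q hQYZ
  have hnb : Nb E C' ⊆ Nb E C ∪ ((S : Set V) ∩ C) := hC'.nb_sub hE
  obtain ⟨S1, hS1⟩ : ∃ S1 : Set V, S1 = {s | s ∈ S ∧ s ∈ C ∧ s ∈ Nb E C'} := ⟨_, rfl⟩
  have hmem : ∀ s, s ∈ S1 ↔ s ∈ S ∧ s ∈ C ∧ s ∈ Nb E C' := fun s => by rw [hS1]; rfl
  refine ⟨?_, ?_⟩
  · refine hEXT V E hE C U T C' S1 P len hP hcn hsubC (fun s hs => ((hmem s).1 hs).2.1) ?_ ?_ ?_ ?_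
    · intro v hv
      rcases hnb hv with h1 | h1
      · exact Or.inl h1
      · exact Or.inr ((hmem v).2 ⟨by simpa using h1.1, h1.2, hv⟩)
    · obtain ⟨s, hsS, hsC⟩ := hne
      obtain ⟨y, hy⟩ := hcn.1
      have hsC' : s ∉ C' := fun h1 => (hsub h1).2 hsS
      obtain ⟨a, b, h1, h2, h3, h4, h5⟩ :=
        (hP.cnC.2 y (hsubC hy) s hsC).enter (T := C'ᶜ) (by simpa using hy) hsC'
      have ha : a ∈ C' := by simpa using h2
      have hbS : b ∈ (S : Set V) := by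
        by_contra hbS
        exact h4 (hC'.absorb ha ⟨h5.left_mem, hbS⟩ h3)
      have hbN : b ∈ Nb E C' := ⟨h4, a, ha, hE a b h3⟩
      exact ⟨b, hbN, (hmem b).2 ⟨by simpa using hbS, h5.left_mem, hbN⟩⟩
    · intro s hs
      obtain ⟨hsS, hsC, hsN⟩ := (hmem s).1 hs
      obtain ⟨q1, q2, q3, q4, q5, q6⟩ := hp1 s hsS hsC
      have q4' : P s 0 ∉ (S : Set V) := by simpa using q4
      have hN0 : P s 0 ∉ Nb E C' := hQN _ q3 q4'
      have hnot : ∀ t, 0 < t → t < len s → P s t ∉ C' := by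
        intro t
        induction t with
        | zero => intro h1; exact absurd h1 (lt_irrefl _)
        | succ t ih =>
          intro _ h2 h3
          have hadj : E (P s (t + 1)) (P s t) := hE _ _ (q2.1 t (by omega))
          rcases Nat.eq_zero_or_pos t with rfl | ht
          · apply hN0
            exact ⟨fun h4 => (hQsub q3).1 (hsubC h4), _, h3, hE _ _ hadj⟩
          · have h4 := q6 t ht (by omega)
            exact ih ht (by omega) (hC'.absorb h3 ⟨h4.1, by simpa using h4.2⟩ hadj)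
      refine ⟨q1, q2, hP.nb (hQsub q3), q5, ?_, hP.d2 _ (hQsub q3), fun h1 => absurd h1 hN0⟩
      intro t ht htl
      rcases lt_or_eq_of_le htl with h1 | h1
      · exact ⟨(q6 t ht h1).1, hnot t ht h1⟩
      · rw [h1, q5]
        exact ⟨hsC, fun h2 => (hsub h2).2 (by simpa using hsS)⟩
    · intro s hs s' hs'
      obtain ⟨hsS, hsC, -⟩ := (hmem s).1 hs
      obtain ⟨hsS', hsC', -⟩ := (hmem s').1 hs'
      exact hp2 s hsS hsC s' hsS' hsC'
  · -- the number of the neighbours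
    have h1 : Nb E C' ⊆ (Nb E C \ (Q \ (S : Set V))) ∪ ((S : Set V) ∩ C) := by
      intro v hv
      rcases hnb hv with h2 | h2
      · exact Or.inl ⟨h2, fun h3 => hQN v h3.1 h3.2 hv⟩
      · exact Or.inr h2
    have h2 : (Nb E C').ncard ≤ ((Nb E C \ (Q \ (S : Set V))) ∪ ((S : Set V) ∩ C)).ncard :=
      Set.ncard_le_ncard h1 (Set.toFinite _)
    have h3 := Set.ncard_union_le (Nb E C \ (Q \ (S : Set V))) ((S : Set V) ∩ C)
    have h4 : (Nb E C \ (Q \ (S : Set V))).ncard + (Q \ (S : Set V)).ncard = (Nb E C).ncard :=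
      Set.ncard_sdiff_add_ncard_of_subset (fun v hv => hQsub hv.1) (Set.toFinite _)
    have h5 : (Q ∩ (S : Set V)).ncard + (Q \ (S : Set V)).ncard = Q.ncard :=
      Set.ncard_inter_add_ncard_sdiff_eq_ncard Q (S : Set V) (Set.toFinite _)
    have h6 : ((S : Set V) ∩ C).ncard + (Q ∩ (S : Set V)).ncard ≤ (S : Set V).ncard := by
      have hd : Disjoint ((S : Set V) ∩ C) (Q ∩ (S : Set V)) :=
        Set.disjoint_left.2 fun v hv hv' => (hQsub hv'.1).1 hv.2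
      rw [← Set.ncard_union_eq hd (Set.toFinite _) (Set.toFinite _)]
      refine Set.ncard_le_ncard ?_ (Set.toFinite _)
      rintro v (hv | hv)
      · exact hv.1
      · exact hv.2
    omega

end Pool.Agent.H35.GM
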